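import Mathlib
import Pool.Agent.Helper56.RZ.GoalsC
import Pool.Agent.Helper50.RZ.E1

/-!
Project RZ2, packet CI: the central growth is small in the mean.
-/

set_option autoImplicit false

open Set Filter Topology MeasureTheory

namespace Pool.Agent.Helper86.RZ

open Pool.Agent.Helper56.RZ Pool.Agent.Helper50.RZ

theorem An_cont {X : Type} [TopologicalSpace X] {K : ℕ} (C : Coc X K) (n : ℕ) :
    Continuous (fun x => C.An n x) := by
  induction n with
  | zero => exact C.contT
  | succ n ih => exact (C.contA.comp (C.f.continuous.iterate n)).mul ih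

theorem exists_bound {X : Type} [TopologicalSpace X] [CompactSpace X] {K : ℕ} (A : X → End K)
    (hA : Continuous A) : ∃ G : ℝ, 1 ≤ G ∧ ∀ x, ‖A x‖ ≤ G := by
  obtain ⟨G, hG⟩ := (isCompact_range hA).exists_bound_of_continuousOn
    (f := fun a : End K => a) continuousOn_id
  exact ⟨max 1 G, le_max_left _ _, fun x => (hG _ ⟨x, rfl⟩).trans (le_max_right _ _)⟩

theorem An_bound {X : Type} [TopologicalSpace X] {K : ℕ} (C : Coc X K) (G R : ℝ) (hG0 : 0 ≤ G)
    (hG : ∀ x, ‖C.A x‖ ≤ G) (hR : ∀ x, ‖C.T x‖ ≤ R) (n : ℕ) (x : X) :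
    ‖C.An n x‖ ≤ G ^ n * R := by
  induction n with
  | zero =>
    rw [pow_zero, one_mul]
    exact hR x
  | succ n ih =>
    change ‖C.A (C.f^[n] x) * C.An n x‖ ≤ _
    refine (norm_mul_le _ _).trans ?_
    rw [pow_succ', mul_assoc]
    exact mul_le_mul (hG _) ih (norm_nonneg _) hG0

/-- Packet CI. -/
theorem ci : StmtCI := by
  intro X _ _ _ _ K C Q m _ hQ hae
  obtain ⟨G, hG1, hG⟩ := exists_bound C.A C.contA
  obtain ⟨R, hR1, hR⟩ := exists_bound C.T C.contT
  obtain ⟨S, hS1, hS⟩ := exists_bound Q hQ.cont
  have hlG : 0 ≤ Real.log G := Real.log_nonneg hG1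
  have hlR : 0 ≤ Real.log R := Real.log_nonneg hR1
  have hlS : 0 ≤ Real.log S := Real.log_nonneg hS1
  have hb : ∀ (n : ℕ) (x : X), max 0 (Real.log ‖C.An n x * Q x‖) ≤
      n * Real.log G + (Real.log R + Real.log S) := by
    intro n x
    refine max_le (by positivity) ?_
    rcases (norm_nonneg (C.An n x * Q x)).eq_or_lt with h0 | h0
    · rw [← h0, Real.log_zero]
      positivity
    · have h1 : ‖C.An n x * Q x‖ ≤ G ^ n * R * S :=
        (norm_mul_le _ _).trans (mul_le_mul
          (An_bound C G R (by linarith) hG hR n x) (hS x) (norm_nonneg _)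
          (by positivity))
      have h2 := Real.log_le_log h0 h1
      have hGp : (0 : ℝ) < G := by linarith
      have hRp : (0 : ℝ) < R := by linarith
      have hSp : (0 : ℝ) < S := by linarith
      rw [Real.log_mul (by positivity) hSp.ne', Real.log_mul (by positivity) hRp.ne',
        Real.log_pow] at h2
      linarith
  have hF : ∀ n : ℕ, (∫ x, max 0 (Real.log ‖C.An n x * Q x‖) ∂m) / n =
      ∫ x, max 0 (Real.log ‖C.An n x * Q x‖) / n ∂m := fun n => (integral_div _ _).symm
  simp only [hF]
  have hlim : Tendsto (fun n : ℕ => ∫ x, max 0 (Real.log ‖C.An n x * Q x‖) / n ∂m) atTop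
      (𝓝 (∫ _x : X, (0 : ℝ) ∂m)) := by
    refine tendsto_integral_of_dominated_convergence
      (fun _ => Real.log G + (Real.log R + Real.log S)) ?_ (integrable_const _) ?_ ?_
    · intro n
      have h1 : Measurable (fun x => ‖C.An n x * Q x‖) :=
        (((An_cont C n).mul hQ.cont).norm).measurable
      exact ((measurable_const.max (Real.measurable_log.comp h1)).div_const _).aestronglyMeasurable
    · intro n
      refine Eventually.of_forall (fun x => ?_)
      have h0 : 0 ≤ max 0 (Real.log ‖C.An n x * Q x‖) / n :=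
        div_nonneg (le_max_left _ _) (Nat.cast_nonneg n)
      rw [Real.norm_of_nonneg h0]
      rcases Nat.eq_zero_or_pos n with rfl | hn
      · rw [Nat.cast_zero, div_zero]
        positivity
      · have hn' : (1 : ℝ) ≤ n := by exact_mod_cast hn
        rw [div_le_iff₀ (by linarith)]
        refine (hb n x).trans ?_
        have h2 : Real.log R + Real.log S ≤ (Real.log R + Real.log S) * n :=
          le_mul_of_one_le_right (by positivity) hn'
        calc n * Real.log G + (Real.log R + Real.log S)
            ≤ Real.log G * n + (Real.log R + Real.log S) * n := by linarith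
          _ = (Real.log G + (Real.log R + Real.log S)) * n := by ring
    · filter_upwards [hae] with x hx
      rw [Metric.tendsto_atTop]
      intro ε hε
      have h1 := norm_bound (fun n => C.An n x) (Q x) (hQ.PP x) hx (ε / 2) (by positivity)
      have h2 : Tendsto (fun n : ℕ => Real.log (K + 1) / (n : ℝ)) atTop (𝓝 0) :=
        tendsto_const_div_atTop_nhds_zero_nat _
      have h3 := h2.eventually_lt_const (show (0 : ℝ) < ε / 2 by positivity)
      obtain ⟨N, hN⟩ := eventually_atTop.1 ((h1.and h3).and (eventually_gt_atTop 0))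
      refine ⟨N, fun n hn => ?_⟩
      obtain ⟨⟨h4, h5⟩, h6⟩ := hN n hn
      have h6' : (0 : ℝ) < n := by exact_mod_cast h6
      have h0 : 0 ≤ max 0 (Real.log ‖C.An n x * Q x‖) / n :=
        div_nonneg (le_max_left _ _) (Nat.cast_nonneg n)
      rw [Real.dist_eq, sub_zero, abs_of_nonneg h0, div_lt_iff₀ h6']
      have hK : (0 : ℝ) ≤ Real.log (K + 1) :=
        Real.log_nonneg (by have := (Nat.cast_nonneg K : (0 : ℝ) ≤ K); linarith)
      have h7 : max 0 (Real.log ‖C.An n x * Q x‖) ≤ Real.log (K + 1) + ε / 2 * n := by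
        refine max_le (by positivity) ?_
        rcases (norm_nonneg (C.An n x * Q x)).eq_or_lt with h8 | h8
        · rw [← h8, Real.log_zero]
          positivity
        · have h9 := Real.log_le_log h8 h4
          rw [Real.log_mul (by positivity) (Real.exp_pos _).ne', Real.log_exp] at h9
          exact h9
      rw [div_lt_iff₀ h6'] at h5
      calc max 0 (Real.log ‖C.An n x * Q x‖) ≤ Real.log (K + 1) + ε / 2 * n := h7
        _ < ε / 2 * n + ε / 2 * n := by linarith
        _ = ε * n := by ring
  simpa using hlim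

end Pool.Agent.Helper86.RZ
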