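import Pool.Agent.Helper56.RZ.GoalsD
import Pool.Agent.Helper34.RZ.F1

/-! # Packet RZ3-TL: the law of the twist -/

set_option autoImplicit false

open Set Filter Topology MeasureTheory
open scoped ContDiff
open Pool.Agent.Helper56.RZ
open Pool.Agent.Helper34.RZ (mul_ij wc_eu wu_ec J_apply R_apply R_ec R_eu)

namespace Pool.Agent.Helper86.RZ

private lemma arg_lt (x : ℝ) : |x * Real.smoothTransition (2 - x ^ 2) / 2| < 1 := by
  rcases le_or_gt 2 (x ^ 2) with h | h
  · rw [Real.smoothTransition.zero_of_nonpos (by linarith)]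
    norm_num
  · have h0 := Real.smoothTransition.nonneg (2 - x ^ 2)
    have h1 := Real.smoothTransition.le_one (2 - x ^ 2)
    have hx : |x| < 2 := by
      rw [← sq_abs] at h
      nlinarith [abs_nonneg x]
    rw [abs_div, abs_mul, abs_of_nonneg h0]
    have h2 : |x| * Real.smoothTransition (2 - x ^ 2) ≤ |x| * 1 :=
      mul_le_mul_of_nonneg_left h1 (abs_nonneg x)
    rw [abs_of_pos (by norm_num : (0 : ℝ) < 2), div_lt_one (by norm_num)]
    linarith

private lemma ang_th : Ang th where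
  smooth := by
    rw [contDiff_iff_contDiffAt]
    intro x
    have h := abs_lt.1 (arg_lt x)
    have h1 : ContDiff ℝ ∞ (fun x : ℝ => x * Real.smoothTransition (2 - x ^ 2) / 2) :=
      (contDiff_id.mul (Real.smoothTransition.contDiff.comp
        (contDiff_const.sub (contDiff_id.pow 2)))).div_const 2
    have h2 : ContDiffAt ℝ ∞ Real.arcsin (x * Real.smoothTransition (2 - x ^ 2) / 2) :=
      Real.contDiffAt_arcsin (by linarith [h.1] |> fun (h' : _ < _) => ne_of_gt h')
        (ne_of_lt h.2)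
    exact h2.comp x h1.contDiffAt
  odd := by
    intro x
    unfold th
    rw [← Real.arcsin_neg]
    congr 1
    rw [neg_sq]
    ring

private lemma ang_th2 : Ang th2 where
  smooth := contDiff_const.mul ang_th.smooth
  odd := by
    intro x
    unfold th2
    rw [ang_th.odd]
    ring

private lemma sin_th (x : ℝ) (hx : |x| ≤ 1) : 2 * Real.sin (th x) = x := by
  have h := abs_le.1 hx
  unfold th
  rw [Real.smoothTransition.one_of_one_le (by nlinarith), mul_one,
    Real.sin_arcsin (by linarith) (by linarith)]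
  ring

section
variable {N : ℕ} {p : Fin 3 → End N}

private lemma rot_eq (d : Tw N p) (s : ℝ) (z : E N) : d.rot s z =
    z + (Real.cos s - 1) • (d.wc z • d.ec + d.wu z • d.eu) +
      Real.sin s • (d.wc z • d.eu - d.wu z • d.ec) := by
  rw [Tw.rot, J_apply]

private lemma wc_rot (hp : Proj3 p) (d : Tw N p) (s : ℝ) (z : E N) :
    d.wc (d.rot s z) = Real.cos s * d.wc z - Real.sin s * d.wu z := by
  simp only [rot_eq, map_add, map_smul, map_sub, d.wcec, wc_eu hp, smul_eq_mul]
  ring

private lemma wu_rot (hp : Proj3 p) (d : Tw N p) (s : ℝ) (z : E N) :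
    d.wu (d.rot s z) = Real.sin s * d.wc z + Real.cos s * d.wu z := by
  simp only [rot_eq, map_add, map_smul, map_sub, d.wueu, wu_ec hp, smul_eq_mul]
  ring

private lemma R_rot (hp : Proj3 p) (d : Tw N p) (s : ℝ) (z : E N) :
    d.R (d.rot s z) = d.R z := by
  simp only [rot_eq, map_add, map_smul, map_sub, R_ec hp, R_eu hp, smul_zero, sub_zero,
    add_zero]

private lemma q_rot (hp : Proj3 p) (d : Tw N p) (s : ℝ) (z : E N) : d.q (d.rot s z) = d.q z := by
  have h1 : d.q (d.rot s z) = (d.wc (d.rot s z)) ^ 2 + (d.wu (d.rot s z)) ^ 2 +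
    ‖d.R (d.rot s z)‖ ^ 2 := rfl
  have h2 : d.q z = (d.wc z) ^ 2 + (d.wu z) ^ 2 + ‖d.R z‖ ^ 2 := rfl
  rw [h1, wc_rot hp, wu_rot hp, R_rot hp]
  have h3 := Real.sin_sq_add_cos_sq s
  rw [h2]
  linear_combination ((d.wc z) ^ 2 + (d.wu z) ^ 2) * h3

private lemma rot_rot (hp : Proj3 p) (d : Tw N p) (s s' : ℝ) (z : E N) :
    d.rot s (d.rot s' z) = d.rot (s + s') z := by
  rw [rot_eq d s (d.rot s' z), wc_rot hp, wu_rot hp, rot_eq d s' z, rot_eq d (s + s') z,
    Real.cos_add, Real.sin_add]
  module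

private lemma rot_sub (hp : Proj3 p) (d : Tw N p) (s : ℝ) (z : E N) :
    d.rot (2 * s) z - z = (2 * Real.sin s) • d.J (d.rot s z) := by
  rw [rot_eq, J_apply, wc_rot hp, wu_rot hp, Real.cos_two_mul, Real.sin_two_mul]
  have h3 := Real.sin_sq_add_cos_sq s
  have hc : Real.cos s ^ 2 = 1 - Real.sin s ^ 2 := by linarith
  rw [hc]
  module

end

theorem tl : StmtTL := by
  refine ⟨ang_th, ang_th2, sin_th, ?_⟩
  intro N p hp d t z
  have hq : ∀ s : ℝ, d.q (d.rot s z) = d.q z := fun s => q_rot hp d s z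
  constructor
  · show d.rot (th2 (t * Tw.be (d.q z))) z = d.rot (th (t * Tw.be
      (d.q (d.rot (th (t * Tw.be (d.q z))) z)))) (d.rot (th (t * Tw.be (d.q z))) z)
    rw [hq, rot_rot hp]
    unfold th2
    rw [two_mul]
  · intro ht
    show d.rot (th2 (t * Tw.be (d.q z))) z - z =
      t • (Tw.be (d.q (d.rot (th (t * Tw.be (d.q z))) z)) •
        d.J (d.rot (th (t * Tw.be (d.q z))) z))
    rw [hq]
    unfold th2
    rw [rot_sub hp, sin_th, smul_smul]
    rw [abs_mul]
    have h0 : 0 ≤ Tw.be (d.q z) := Real.smoothTransition.nonneg _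
    have h1 : Tw.be (d.q z) ≤ 1 := Real.smoothTransition.le_one _
    rw [abs_of_nonneg h0]
    have := abs_nonneg t
    nlinarith

end Pool.Agent.Helper86.RZ
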